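import Pool.Agent.Helper80.CB.Stmts

namespace Pool.Agent.Helper80.CB

open Matrix MvPolynomial

/-! ### Homogeneous components of products -/

theorem csti_comp_mul {r : ℕ} (g h : MvPolynomial (Fin r) ℝ) (e n : ℕ)
    (hh : h.IsHomogeneous e) :
    homogeneousComponent n (g * h) =
      if e ≤ n then homogeneousComponent (n - e) g * h else 0 := by
  conv_lhs => rw [← sum_homogeneousComponent g, Finset.sum_mul, map_sum]
  have h1 : ∀ i, homogeneousComponent n (homogeneousComponent i g * h) =
      if n = i + e then homogeneousComponent i g * h else 0 := fun i =>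
    homogeneousComponent_of_mem ((homogeneousComponent_isHomogeneous i g).mul hh)
  simp only [h1]
  split_ifs with hle
  · by_cases hlt : n - e < g.totalDegree + 1
    · rw [Finset.sum_eq_single (n - e)]
      · rw [if_pos (by omega)]
      · intro b _ hb; rw [if_neg (by omega)]
      · intro hn; exact absurd (Finset.mem_range.mpr hlt) hn
    · rw [Finset.sum_eq_zero, homogeneousComponent_eq_zero _ _ (by omega), zero_mul]
      intro i hi
      rw [if_neg]
      have := Finset.mem_range.mp hi
      omega
  · apply Finset.sum_eq_zero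
    intro i _
    rw [if_neg (by omega)]

/-! ### Weighted homogeneous relations -/

section

variable {r m : ℕ} {f : Fin m → MvPolynomial (Fin r) ℝ} {d : Fin m → ℕ}

theorem csti_aeval_hom (hf : ∀ i, (f i).IsHomogeneous (d i)) (p : MvPolynomial (Fin m) ℝ)
    (D : ℕ) (hp : p.IsWeightedHomogeneous d D) : (aeval f p).IsHomogeneous D := by
  rw [aeval_def, eval₂_eq']
  refine IsHomogeneous.sum _ _ _ fun e he => ?_
  have h1 : (∏ i, f i ^ e i).IsHomogeneous (∑ i, d i * e i) :=
    IsHomogeneous.prod _ _ _ fun i _ => (hf i).pow (e i)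
  have h2 : ∑ i, d i * e i = D := by
    rw [← hp (mem_support_iff.mp he), Finsupp.weight_apply, Finsupp.sum_fintype]
    · exact Finset.sum_congr rfl fun i _ => by rw [smul_eq_mul, mul_comm]
    · intro i; simp
  rw [h2] at h1
  rw [algebraMap_eq]
  have := (isHomogeneous_C (Fin r) (coeff e p)).mul h1
  rwa [zero_add] at this

theorem csti_comp_aeval (hf : ∀ i, (f i).IsHomogeneous (d i)) (p : MvPolynomial (Fin m) ℝ)
    (D : ℕ) : homogeneousComponent D (aeval f p) =
      aeval f (weightedHomogeneousComponent d D p) := by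
  induction p using MvPolynomial.induction_on' with
  | monomial e a =>
    rw [homogeneousComponent_of_mem (csti_aeval_hom hf _ _
      (isWeightedHomogeneous_monomial d e a rfl)),
      weightedHomogeneousComponent_of_mem (isWeightedHomogeneous_monomial d e a rfl)]
    split_ifs <;> simp
  | add p q hp hq => simp only [map_add, hp, hq]

theorem csti_chain (f : Fin m → MvPolynomial (Fin r) ℝ) (p : MvPolynomial (Fin m) ℝ)
    (k : Fin r) :
    pderiv k (aeval f p) = ∑ i, aeval f (pderiv i p) * pderiv k (f i) := by
  induction p using MvPolynomial.induction_on with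
  | C a => simp [algHom_C, algebraMap_eq]
  | add p q hp hq => simp only [map_add, hp, hq, add_mul, Finset.sum_add_distrib]
  | mul_X p j hp =>
    rw [map_mul, aeval_X, pderiv_mul, hp, Finset.sum_mul]
    have : ∀ i, aeval f (pderiv i (p * X j)) * pderiv k (f i) =
        aeval f (pderiv i p) * pderiv k (f i) * f j +
          (if i = j then aeval f p * pderiv k (f i) else 0) := by
      intro i
      rw [pderiv_mul, pderiv_X, map_add, map_mul, map_mul, aeval_X]
      by_cases hij : i = j
      · subst hij
        simp
        ring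
      · rw [Pi.single_eq_of_ne (Ne.symm hij), map_zero, mul_zero, if_neg hij]
        ring
    simp only [this]
    rw [Finset.sum_add_distrib, Finset.sum_ite_eq' Finset.univ j, if_pos (Finset.mem_univ j)]

end

/-! ### Invariants -/

section

variable {r : ℕ} {T : Type} [AddCommGroup T] [Module ℝ T] {c : Module.Basis (Fin r) ℝ T}
  {W : Subgroup (T ≃ₗ[ℝ] T)}

theorem csti_winv_add {P Q : MvPolynomial (Fin r) ℝ} (hP : WInv c W P) (hQ : WInv c W Q) :
    WInv c W (P + Q) := by
  intro w hw x
  have h1 := hP w hw x
  have h2 := hQ w hw x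
  simp only [val, map_add] at *
  rw [h1, h2]

theorem csti_winv_mul {P Q : MvPolynomial (Fin r) ℝ} (hP : WInv c W P) (hQ : WInv c W Q) :
    WInv c W (P * Q) := by
  intro w hw x
  have h1 := hP w hw x
  have h2 := hQ w hw x
  simp only [val, map_mul] at *
  rw [h1, h2]

theorem csti_winv_C (a : ℝ) : WInv c W (C a) := by
  intro w hw x
  simp only [val, eval_C]

theorem csti_winv_zero : WInv c W 0 := by
  have := csti_winv_C (c := c) (W := W) 0
  rwa [map_zero] at this

theorem csti_winv_one : WInv c W 1 := by
  have := csti_winv_C (c := c) (W := W) 1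
  rwa [map_one] at this

theorem csti_winv_aeval {m : ℕ} {f : Fin m → MvPolynomial (Fin r) ℝ}
    (hf : ∀ i, WInv c W (f i)) (p : MvPolynomial (Fin m) ℝ) : WInv c W (aeval f p) := by
  induction p using MvPolynomial.induction_on with
  | C a =>
    rw [algHom_C, algebraMap_eq]
    exact csti_winv_C a
  | add p q hp hq =>
    rw [map_add]; exact csti_winv_add hp hq
  | mul_X p j hp =>
    rw [map_mul, aeval_X]; exact csti_winv_mul hp (hf j)

/-- homogeneous components of invariants are invariant -/
theorem csti_winv_comp (ρ : MvPolynomial (Fin r) ℝ →ₗ[ℝ] MvPolynomial (Fin r) ℝ)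
    (h1 : ∀ P, WInv c W (ρ P)) (h2 : ∀ P, WInv c W P → ρ P = P)
    (h3 : ∀ P d, P.IsHomogeneous d → (ρ P).IsHomogeneous d) {P : MvPolynomial (Fin r) ℝ}
    (hP : WInv c W P) (n : ℕ) : WInv c W (homogeneousComponent n P) := by
  have key : homogeneousComponent n (ρ P) = ρ (homogeneousComponent n P) := by
    conv_lhs => rw [← sum_homogeneousComponent P, map_sum, map_sum]
    have h4 : ∀ i, homogeneousComponent n (ρ (homogeneousComponent i P)) =
        if n = i then ρ (homogeneousComponent i P) else 0 := fun i =>
      homogeneousComponent_of_mem (h3 _ _ (homogeneousComponent_isHomogeneous i P))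
    simp only [h4]
    by_cases hlt : n < P.totalDegree + 1
    · rw [Finset.sum_eq_single n]
      · rw [if_pos rfl]
      · intro b _ hb; rw [if_neg (Ne.symm hb)]
      · intro hn; exact absurd (Finset.mem_range.mpr hlt) hn
    · rw [Finset.sum_eq_zero, homogeneousComponent_eq_zero _ _ (by omega), map_zero]
      intro i hi
      rw [if_neg]
      have := Finset.mem_range.mp hi
      omega
  rw [← h2 P hP, key]
  exact h1 _

end

/-! ### The theorem -/

theorem st_CSTI (hL : ST_CSTL) (hR : ST_REYN) : ST_CSTI := by
  classical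
  intro r T _ _ c W hW hWr m f d hf hd hfW hspan hmin
  obtain ⟨ρ, hρ1, hρ2, -, hρ4, -⟩ := hR r T c W hW
  rw [algebraicIndependent_iff]
  by_contra hcon
  push Not at hcon
  -- a weighted homogeneous relation of minimal degree
  have hex : ∃ D : ℕ, ∃ p : MvPolynomial (Fin m) ℝ, p ≠ 0 ∧ p.IsWeightedHomogeneous d D ∧
      aeval f p = 0 := by
    obtain ⟨p, hp0, hpne⟩ := hcon
    obtain ⟨e, he⟩ := exists_coeff_ne_zero hpne
    refine ⟨Finsupp.weight d e, weightedHomogeneousComponent d (Finsupp.weight d e) p, ?_,
      weightedHomogeneousComponent_isWeightedHomogeneous _ _, ?_⟩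
    · intro h0
      have := congrArg (coeff e) h0
      rw [coeff_weightedHomogeneousComponent, if_pos rfl, coeff_zero] at this
      exact he this
    · rw [← csti_comp_aeval hf, hp0, map_zero]
  obtain ⟨p, hpne, hpD, hp0⟩ := Nat.find_spec hex
  set D := Nat.find hex with hDdef
  have hDmin : ∀ D' < D, ∀ q : MvPolynomial (Fin m) ℝ, q.IsWeightedHomogeneous d D' →
      aeval f q = 0 → q = 0 := by
    intro D' hD' q hq hq0
    by_contra hqne
    exact Nat.find_min hex hD' ⟨q, hqne, hq, hq0⟩
  -- D is positive
  have hDpos : D ≠ 0 := by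
    intro hD0
    have hpC : p = C (coeff 0 p) := by
      ext e
      rw [coeff_C]
      split_ifs with h0
      · rw [← h0]
      · by_contra hce
        have hw := hpD hce
        rw [hD0, Finsupp.weight_apply, Finsupp.sum_fintype _ _ (by intro i; simp)] at hw
        apply h0
        ext i
        have := (Finset.sum_eq_zero_iff.mp hw) i (Finset.mem_univ i)
        rw [smul_eq_mul, Nat.mul_eq_zero] at this
        rcases this with h | h
        · simp [h]
        · exact absurd h (hd i).ne'
    rw [hpC, algHom_C, algebraMap_eq, C_eq_zero] at hp0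
    rw [hp0, map_zero] at hpC
    exact hpne hpC
  -- partial derivatives of the relation
  have hpd0 : ∀ i, D < d i → pderiv i p = 0 := by
    intro i hi
    apply pderiv_eq_zero_of_notMem_vars
    intro hv
    rw [mem_vars_iff_mem_support] at hv
    obtain ⟨e, he, hie⟩ := hv
    have hw := hpD (mem_support_iff.mp he)
    rw [Finsupp.weight_apply, Finsupp.sum_fintype _ _ (by intro i; simp)] at hw
    have h1 : e i • d i ≤ ∑ i, e i • d i :=
      Finset.single_le_sum (f := fun i => e i • d i) (fun _ _ => Nat.zero_le _)
        (Finset.mem_univ i)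
    rw [hw, smul_eq_mul] at h1
    have h2 : 1 ≤ e i := Nat.one_le_iff_ne_zero.mpr (Finsupp.mem_support_iff.mp hie)
    have h3 : d i ≤ e i * d i := Nat.le_mul_of_pos_left _ h2
    omega
  have hpdw : ∀ i, d i ≤ D → (pderiv i p).IsWeightedHomogeneous d (D - d i) := by
    intro i hi
    exact hpD.pderiv (by omega)
  let h : Fin m → MvPolynomial (Fin r) ℝ := fun i => aeval f (pderiv i p)
  have hhW : ∀ i, WInv c W (h i) := fun i => csti_winv_aeval hfW _
  have hhd : ∀ i, h i ≠ 0 → d i ≤ D := by
    intro i hi
    by_contra hlt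
    apply hi
    show aeval f (pderiv i p) = 0
    rw [hpd0 i (by omega), map_zero]
  have hhh : ∀ i, (h i).IsHomogeneous (D - d i) := by
    intro i
    by_cases hi : d i ≤ D
    · exact csti_aeval_hom hf _ _ (hpdw i hi)
    · have : h i = 0 := by
        show aeval f (pderiv i p) = 0
        rw [hpd0 i (by omega), map_zero]
      rw [this]
      exact isHomogeneous_zero _ _ _
  have hhne : ∃ i, h i ≠ 0 := by
    by_contra hall
    push Not at hall
    have hpz : ∀ i, pderiv i p = 0 := by
      intro i
      by_cases hi : d i ≤ D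
      · have := hd i
        exact hDmin (D - d i) (by omega) _ (hpdw i hi) (hall i)
      · exact hpd0 i (by omega)
    have hE := hpD.sum_weight_X_mul_pderiv
    simp only [hpz, mul_zero, smul_zero, Finset.sum_const_zero] at hE
    have hE' : (D : ℕ) • p = 0 := hE.symm
    rcases smul_eq_zero.mp hE' with h0 | h0
    · exact hDpos h0
    · exact hpne h0
  -- the derivative of the relation
  have hrel : ∀ k, ∑ i, h i * pderiv k (f i) = 0 := by
    intro k
    have := csti_chain f p k
    rw [hp0, map_zero] at this
    exact this.symm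
  clear_value h D
  -- minimal set of generators of the module of the h i
  let Gen : Finset (Fin m) → Prop := fun J => ∀ i, ∃ g : Fin m → MvPolynomial (Fin r) ℝ,
    (∀ j, WInv c W (g j)) ∧ h i = ∑ j ∈ J, g j * h j
  have hexJ : ∃ n : ℕ, ∃ J : Finset (Fin m), J.card = n ∧ Gen J := by
    refine ⟨_, Finset.univ, rfl, fun i => ⟨Pi.single i 1, fun j => ?_, ?_⟩⟩
    · by_cases hij : j = i
      · subst hij; rw [Pi.single_eq_same]; exact csti_winv_one
      · rw [Pi.single_eq_of_ne hij]; exact csti_winv_zero
    · rw [Finset.sum_eq_single i]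
      · rw [Pi.single_eq_same, one_mul]
      · intro j _ hj; rw [Pi.single_eq_of_ne hj, zero_mul]
      · intro hi; exact absurd (Finset.mem_univ i) hi
  obtain ⟨J, hJcard, hJgen⟩ := Nat.find_spec hexJ
  have hJmin : ∀ J' : Finset (Fin m), J'.card < J.card → ¬ Gen J' := by
    intro J' hJ' hG
    rw [hJcard] at hJ'
    exact Nat.find_min hexJ hJ' ⟨J', rfl, hG⟩
  have hJne : J.Nonempty := by
    rw [Finset.nonempty_iff_ne_empty]
    intro hJe
    obtain ⟨i, hi⟩ := hhne
    obtain ⟨g, -, hg⟩ := hJgen i
    rw [hJe, Finset.sum_empty] at hg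
    exact hi hg
  obtain ⟨j0, hj0⟩ := hJne
  have hN : ¬ ∃ a : Fin m → MvPolynomial (Fin r) ℝ, (∀ j, WInv c W (a j)) ∧
      h j0 = ∑ j ∈ J.erase j0, a j * h j := by
    rintro ⟨a, haW, ha⟩
    refine hJmin (J.erase j0) (Finset.card_erase_lt_of_mem hj0) fun i => ?_
    obtain ⟨g, hgW, hg⟩ := hJgen i
    refine ⟨fun j => g j0 * a j + g j,
      fun j => csti_winv_add (csti_winv_mul (hgW j0) (haW j)) (hgW j), ?_⟩
    rw [hg, ← Finset.add_sum_erase J _ hj0]
    simp only [add_mul, Finset.sum_add_distrib]
    congr 1
    conv_lhs => rw [ha]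
    rw [Finset.mul_sum]
    exact Finset.sum_congr rfl fun j _ => by ring
  -- homogeneous coefficients
  have hgh : ∀ i, ∃ g : Fin m → MvPolynomial (Fin r) ℝ, (∀ j, WInv c W (g j)) ∧
      (∀ j, g j ≠ 0 → d i ≤ d j) ∧ (∀ j, (g j).IsHomogeneous (d j - d i)) ∧
      h i = ∑ j ∈ J, g j * h j := by
    intro i
    by_cases hi : h i = 0
    · refine ⟨fun _ => 0, fun _ => csti_winv_zero, fun j hj => absurd rfl hj,
        fun j => isHomogeneous_zero _ _ _, ?_⟩
      simp [hi]
    · obtain ⟨g, hgW, hg⟩ := hJgen i
      refine ⟨fun j => if h j = 0 ∨ d j < d i then 0 else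
        homogeneousComponent (d j - d i) (g j), ?_, ?_, ?_, ?_⟩
      · intro j
        dsimp only
        split_ifs
        · exact csti_winv_zero
        · exact csti_winv_comp ρ hρ1 hρ2 hρ4 (hgW j) _
      · intro j hj
        by_contra hlt
        apply hj
        dsimp only
        rw [if_pos (Or.inr (by omega))]
      · intro j
        dsimp only
        split_ifs
        · exact isHomogeneous_zero _ _ _
        · exact homogeneousComponent_isHomogeneous _ _
      · have h1 : h i = homogeneousComponent (D - d i) (h i) :=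
          (homogeneousComponent_eq_self (hhh i)).symm
        rw [h1, hg, map_sum]
        refine Finset.sum_congr rfl fun j _ => ?_
        dsimp only
        by_cases hj : h j = 0
        · rw [hj, mul_zero, map_zero, mul_zero]
        · rw [csti_comp_mul _ _ _ _ (hhh j)]
          have hdi := hhd i hi
          have hdj := hhd j hj
          by_cases hlt : d j < d i
          · rw [if_neg (by omega), if_pos (Or.inr hlt), zero_mul]
          · rw [if_pos (by omega), if_neg (by tauto)]
            congr 2
            congr 1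
            omega
  choose g hgW hgle hghom hgsum using hgh
  let P : Fin r → Fin m → MvPolynomial (Fin r) ℝ := fun k j =>
    pderiv k (f j) + ∑ i ∈ Jᶜ, g i j * pderiv k (f i)
  have hPrel : ∀ k, ∑ j ∈ J, P k j * h j = 0 := by
    intro k
    rw [← hrel k, ← Finset.sum_add_sum_compl J]
    simp only [P, add_mul, Finset.sum_add_distrib]
    congr 1
    · exact Finset.sum_congr rfl fun j _ => mul_comm _ _
    · simp only [Finset.sum_mul]
      rw [Finset.sum_comm]
      refine Finset.sum_congr rfl fun i _ => ?_
      conv_rhs => rw [hgsum i]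
      rw [Finset.sum_mul]
      exact Finset.sum_congr rfl fun j _ => by ring
  have hPhom : ∀ k, (P k j0).IsHomogeneous (d j0 - 1) := by
    intro k
    refine IsHomogeneous.add (hf j0).pderiv (IsHomogeneous.sum _ _ _ fun i _ => ?_)
    by_cases hg0 : g i j0 = 0
    · rw [hg0, zero_mul]; exact isHomogeneous_zero _ _ _
    · have h1 := hgle i j0 hg0
      have h2 := hd i
      have h3 := (hghom i j0).mul ((hf i).pderiv (i := k))
      rwa [show d j0 - d i + (d i - 1) = d j0 - 1 by omega] at h3
  have hPmem : ∀ k, P k j0 ∈ hilbIdeal c W := by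
    intro k
    let e := (J.erase j0).equivFin.symm
    have hsumE : ∀ F : Fin m → MvPolynomial (Fin r) ℝ,
        ∑ a : Fin (J.erase j0).card, F (e a) = ∑ j ∈ J.erase j0, F j := by
      intro F
      rw [Equiv.sum_comp e (fun x => F x), Finset.sum_coe_sort (J.erase j0) F]
    have key := hL r T c W hW hWr (J.erase j0).card
      (Fin.cons (h j0) (fun a => h (e a)) : Fin ((J.erase j0).card + 1) → _)
      (fun a => by
        refine Fin.cases ?_ (fun b => ?_) a
        · simpa using hhW j0
        · simpa using hhW _)
      (by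
        rintro ⟨a, haW, ha⟩
        apply hN
        refine ⟨fun j => if hj : j ∈ J.erase j0 then a (e.symm ⟨j, hj⟩) else 0, ?_, ?_⟩
        · intro j
          dsimp only
          split_ifs
          · exact haW _
          · exact csti_winv_zero
        · rw [← hsumE]
          simp only [Fin.cons_zero, Fin.cons_succ] at ha
          rw [ha]
          refine Finset.sum_congr rfl fun b _ => ?_
          dsimp only
          rw [dif_pos (e b).2]
          simp)
      (d j0 - 1)
      (Fin.cons (P k j0) (fun a => P k (e a)) : Fin ((J.erase j0).card + 1) → _)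
      (by simpa using hPhom k)
      (by
        rw [Fin.sum_univ_succ]
        simp only [Fin.cons_zero, Fin.cons_succ]
        rw [hsumE (fun j => P k j * h j), Finset.add_sum_erase J (fun j => P k j * h j) hj0]
        exact hPrel k)
    simpa using key
  have hPco : ∀ k, ∃ a : Fin m → MvPolynomial (Fin r) ℝ, ∑ i, a i * f i = P k j0 := by
    intro k
    have := hPmem k
    rw [hspan] at this
    exact Ideal.mem_span_range_iff_exists_fun.mp this
  choose a ha using hPco
  -- Euler
  have hEuler : ∑ k, X k * P k j0 =
      (d j0) • f j0 + ∑ i ∈ Jᶜ, g i j0 * ((d i) • f i) := by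
    simp only [P, mul_add, Finset.sum_add_distrib]
    congr 1
    · exact (hf j0).sum_X_mul_pderiv
    · simp only [Finset.mul_sum]
      rw [Finset.sum_comm]
      refine Finset.sum_congr rfl fun i _ => ?_
      rw [← (hf i).sum_X_mul_pderiv, Finset.mul_sum]
      exact Finset.sum_congr rfl fun k _ => by ring
  have hEhom : (∑ k, X k * P k j0).IsHomogeneous (d j0) := by
    refine IsHomogeneous.sum _ _ _ fun k _ => ?_
    have h1 := (isHomogeneous_X ℝ k).mul (hPhom k)
    have h2 := hd j0
    rwa [show 1 + (d j0 - 1) = d j0 by omega] at h1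
  have hE2 : ∑ k, X k * P k j0 = ∑ i, (∑ k, X k * a k i) * f i := by
    simp only [← ha, Finset.mul_sum, Finset.sum_mul]
    rw [Finset.sum_comm]
    exact Finset.sum_congr rfl fun i _ => Finset.sum_congr rfl fun k _ => by ring
  have hE3 : ∑ k, X k * P k j0 ∈ Ideal.span (f '' {j | j ≠ j0}) := by
    rw [← homogeneousComponent_eq_self hEhom, hE2, map_sum]
    refine Ideal.sum_mem _ fun i _ => ?_
    rw [csti_comp_mul _ _ _ _ (hf i)]
    split_ifs with hle
    · by_cases hij : i = j0
      · subst hij
        rw [Nat.sub_self, homogeneousComponent_zero]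
        have : coeff 0 (∑ k, X k * a k i) = 0 := by
          rw [coeff_sum]
          refine Finset.sum_eq_zero fun k _ => ?_
          rw [← constantCoeff_eq, map_mul, constantCoeff_X, zero_mul]
        rw [this, map_zero, zero_mul]
        exact Ideal.zero_mem _
      · exact Ideal.mul_mem_left _ _ (Ideal.subset_span ⟨i, hij, rfl⟩)
    · exact Ideal.zero_mem _
  have hE4 : ∑ i ∈ Jᶜ, g i j0 * ((d i) • f i) ∈ Ideal.span (f '' {j | j ≠ j0}) := by
    refine Ideal.sum_mem _ fun i hi => Ideal.mul_mem_left _ _ ?_
    rw [nsmul_eq_mul]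
    refine Ideal.mul_mem_left _ _ (Ideal.subset_span ⟨i, ?_, rfl⟩)
    rintro rfl
    exact (Finset.mem_compl.mp hi) hj0
  have hE5 : (d j0) • f j0 ∈ Ideal.span (f '' {j | j ≠ j0}) := by
    have := Ideal.sub_mem _ hE3 hE4
    rwa [hEuler, add_sub_cancel_right] at this
  apply hmin j0
  have h6 : f j0 = C ((d j0 : ℝ)⁻¹) * ((d j0) • f j0) := by
    have h7 : ((d j0 : ℕ) : MvPolynomial (Fin r) ℝ) = C (d j0 : ℝ) := (map_natCast C _).symm
    rw [nsmul_eq_mul, h7, ← mul_assoc, ← map_mul, inv_mul_cancel₀, map_one, one_mul]
    exact_mod_cast (hd j0).ne'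
  rw [h6]
  exact Ideal.mul_mem_left _ _ hE5

end Pool.Agent.Helper80.CB
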