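import Pool.Agent.Helper83.CB.Defs3

/-!
# CONN: continuous maps from connected sets to the isometry group stay in a coset of `S`
-/

open Filter Topology MeasureTheory

namespace Pool.Agent.Helper83.CB

theorem CONN_norm {n : ℕ} {N0 : E n → ℝ} (hU : Unitary N0) (g : M n)
    (hg : g ∈ PP (n := n) (m := n) N0 N0) (X : M n) : ‖g * X‖ ≤ ‖X‖ := by
  refine ContinuousLinearMap.opNorm_le_bound _ (norm_nonneg _) fun z => ?_
  have h1 : (g * X) z = g (X z) := rfl
  rw [h1, hU g hg (X z)]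
  exact X.le_opNorm z

theorem CONN_key (h : ST_GRP) {n : ℕ} {N0 : E n → ℝ} (hN : IsNorm N0) (hU : Unitary N0)
    {S : Set (M n)} (hS : OpenSub N0 S) : ∃ δ > 0, ∀ g ∈ PP (n := n) (m := n) N0 N0,
      ∀ k ∈ PP (n := n) (m := n) N0 N0, ‖k - g‖ < δ → g ∈ S → k ∈ S := by
  obtain ⟨_, h1, hmul, hst⟩ := h n N0 hN hU
  obtain ⟨δ, hδ, hopn⟩ := hS.opn
  refine ⟨δ, hδ, ?_⟩
  intro g hg k hk hd hgS
  obtain ⟨hg1, hg2, hg3⟩ := hst g hg
  have e1 : star g * k - 1 = star g * (k - g) := by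
    rw [mul_sub, hg2]
  have e2 : ‖star g * k - 1‖ < δ := by
    rw [e1]
    exact lt_of_le_of_lt (CONN_norm hU _ hg1 _) hd
  have e3 : star g * k ∈ S := hopn _ (hmul _ hg1 _ hk) e2
  have e4 : k = g * (star g * k) := by
    rw [← mul_assoc, hg3, one_mul]
  rw [e4]
  exact hS.mul _ hgS _ e3

theorem st_CONN (h : ST_GRP) : ST_CONN := by
  intro n N0 hN hU S hS T _ O a hO ha hP hex
  obtain ⟨δ, hδ, key⟩ := CONN_key h hN hU hS
  have _inst : PreconnectedSpace O := Subtype.preconnectedSpace hO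
  have hcont : Continuous fun x : O => a x := continuousOn_iff_continuous_domRestrict.1 ha
  have near : ∀ x : O, ∀ᶠ y : O in 𝓝 x, ‖a y - a x‖ < δ := by
    intro x
    have h2 : Tendsto (fun y : O => a y) (𝓝 x) (𝓝 (a x)) := hcont.continuousAt
    have h3 := h2.eventually (Metric.ball_mem_nhds (a x) hδ)
    filter_upwards [h3] with y hy
    rwa [dist_eq_norm] at hy
  let s : Set O := {x | a x ∈ S}
  have hopen : IsOpen s := by
    rw [isOpen_iff_mem_nhds]
    intro x hx
    filter_upwards [near x] with y hy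
    exact key _ (hP x x.2) _ (hP y y.2) hy hx
  have hclosed : IsClosed s := by
    rw [← isOpen_compl_iff, isOpen_iff_mem_nhds]
    intro x hx
    filter_upwards [near x] with y hy
    intro hyS
    refine hx (key _ (hP y y.2) _ (hP x x.2) ?_ hyS)
    rw [norm_sub_rev]
    exact hy
  obtain ⟨x0, hx0, hx0S⟩ := hex
  have huniv : s = Set.univ := IsClopen.eq_univ ⟨hclosed, hopen⟩ ⟨⟨x0, hx0⟩, hx0S⟩
  intro x hx
  have : (⟨x, hx⟩ : O) ∈ s := by rw [huniv]; trivial
  exact this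

end Pool.Agent.Helper83.CB
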