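import Pool.Agent.Helper83.CB.Defs4

/-!
# SHIFT: transition functions of shifts and permutations are in `S`
-/

open Filter Topology MeasureTheory

namespace Pool.Agent.Helper83.CB

/-- the cube `[-2, 2]^ι` -/
def SHIFT_Q (ι : Type) : Set (ι → ℝ) := {x | ∀ ν, -2 ≤ x ν ∧ x ν ≤ 2}

theorem SHIFT_convex (ι : Type) : IsPreconnected (SHIFT_Q ι) := by
  have h : Convex ℝ (SHIFT_Q ι) := by
    intro x hx y hy a b ha hb hab ν
    have h1 := hx ν
    have h2 := hy ν
    have e : (a • x + b • y) ν = a * x ν + b * y ν := by simp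
    rw [e]
    constructor
    · nlinarith [mul_nonneg ha (sub_nonneg.2 h1.1), mul_nonneg hb (sub_nonneg.2 h2.1)]
    · nlinarith [mul_nonneg ha (sub_nonneg.2 h1.2), mul_nonneg hb (sub_nonneg.2 h2.2)]
  exact h.isPreconnected

theorem SHIFT_ball {ι : Type} [Fintype ι] {x : ι → ℝ} (hx : ∀ ν, |x ν| ≤ 3) :
    x ∈ Metric.closedBall (0 : ι → ℝ) 3 := by
  rw [mem_closedBall_zero_iff]
  exact (pi_norm_le_iff_of_nonneg (by norm_num)).2 fun ν => by
    rw [Real.norm_eq_abs]
    exact hx ν

section
variable {n : ℕ} {ι : Type} [Fintype ι] {N0 : E n → ℝ} {N : E (n + 1) → ℝ}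
  {π : (ι → ℝ) → M (n + 1)} {L : (ι → ℝ) → E n →L[ℂ] E (n + 1)}
  {K : (ι → ℝ) → E (n + 1) →L[ℂ] E n}

theorem SHIFT_mem (hF : IsFrame N0 N π 3 L K) {x y : ι → ℝ}
    (hx : x ∈ Metric.closedBall (0 : ι → ℝ) 3) (hy : y ∈ Metric.closedBall (0 : ι → ℝ) 3)
    (h : π y = π x) : (K x).comp (L y) ∈ PP (n := n) (m := n) N0 N0 := by
  intro z
  have e1 : L y z = (L x) (((K x).comp (L y)) z) := by
    have h1 : (L x) ((K x) (L y z)) = (π x) (L y z) := by
      rw [← hF.right x hx]
      rfl
    have h2 : (π y) (L y z) = L y z := by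
      rw [← hF.right y hy]
      have h3 : (K y) (L y z) = z := by
        have h4 := congrArg (fun T : E n →L[ℂ] E n => T z) (hF.left y hy)
        exact h4
      have h5 : ((L y).comp (K y)) (L y z) = (L y) ((K y) (L y z)) := rfl
      rw [h5, h3]
    have h6 : ((K x).comp (L y)) z = (K x) (L y z) := rfl
    rw [h6, h1, ← h, h2]
  rw [← hF.mem x hx (((K x).comp (L y)) z), ← e1, hF.mem y hy z]

theorem SHIFT_cont (hF : IsFrame N0 N π 3 L K) {T : Type} [TopologicalSpace T]
    {u v : T → ι → ℝ} (hu : Continuous u) (hv : Continuous v) :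
    Continuous fun t => (K (u t)).comp (L (v t)) := by
  obtain ⟨C, hC⟩ := hF.lipK
  obtain ⟨C', hC'⟩ := hF.lipL
  exact (hC.continuous.comp hu).clm_comp (hC'.continuous.comp hv)

/-- a shift direction along which `π` is constant on some line gives a transition map in `S` -/
theorem SHIFT_core (h1 : ST_CONN) [DecidableEq ι] (hN : IsNorm N0) (hU : Unitary N0)
    {S : Set (M n)} (hS : OpenSub N0 S) (hF : IsFrame N0 N π 3 L K)
    (per : ∀ x μ, π (x + Pi.single μ 1) = π x) (μ : ι) (x0 : ι → ℝ)
    (hx0 : x0 ∈ SHIFT_Q ι) (hx0' : ∀ s, π (Function.update x0 μ s) = π x0) :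
    ∀ x ∈ SHIFT_Q ι, (K x).comp (L (x + Pi.single μ 1)) ∈ S := by
  have hb : ∀ x ∈ SHIFT_Q ι, x ∈ Metric.closedBall (0 : ι → ℝ) 3 := by
    intro x hx
    refine SHIFT_ball fun ν => ?_
    have := hx ν
    rw [abs_le]
    constructor <;> linarith [this.1, this.2]
  have hb1 : ∀ x ∈ SHIFT_Q ι, ∀ t : ℝ, 0 ≤ t → t ≤ 1 →
      x + Pi.single μ t ∈ Metric.closedBall (0 : ι → ℝ) 3 := by
    intro x hx t ht0 ht1
    refine SHIFT_ball fun ν => ?_
    have := hx ν
    rw [abs_le, Pi.add_apply]
    by_cases hν : ν = μ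
    · subst hν
      rw [Pi.single_eq_same]
      constructor <;> linarith [this.1, this.2]
    · rw [Pi.single_eq_of_ne hν]
      constructor <;> linarith [this.1, this.2]
  -- the path
  have hpath : ∀ t ∈ Set.Icc (0 : ℝ) 1, (K x0).comp (L (x0 + Pi.single μ t)) ∈ S := by
    refine h1 n N0 hN hU S hS ℝ (Set.Icc (0 : ℝ) 1) _ isPreconnected_Icc ?_ ?_ ?_
    · refine (SHIFT_cont hF continuous_const ?_).continuousOn
      refine continuous_const.add ?_
      exact continuous_single (A := fun _ : ι => ℝ) μ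
    · intro t ht
      refine SHIFT_mem hF (hb _ hx0) (hb1 _ hx0 t ht.1 ht.2) ?_
      have e : x0 + Pi.single μ t = Function.update x0 μ (x0 μ + t) := by
        funext ν
        by_cases hν : ν = μ
        · subst hν
          simp
        · simp [hν]
      rw [e]
      exact hx0' _
    · refine ⟨0, ⟨le_refl _, zero_le_one⟩, ?_⟩
      rw [Pi.single_zero, add_zero, hF.left _ (hb _ hx0)]
      exact hS.one
  refine h1 n N0 hN hU S hS (ι → ℝ) (SHIFT_Q ι) _ (SHIFT_convex ι) ?_ ?_ ?_
  · exact (SHIFT_cont hF continuous_id (continuous_id.add continuous_const)).continuousOn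
  · intro x hx
    exact SHIFT_mem hF (hb _ hx) (hb1 _ hx 1 zero_le_one le_rfl) (per x μ)
  · exact ⟨x0, hx0, hpath 1 ⟨zero_le_one, le_rfl⟩⟩

end

theorem SHIFT_half : inStrip (1 / 2) := by
  unfold inStrip
  rw [Int.fract_eq_self.2 ⟨by norm_num, by norm_num⟩]
  constructor <;> norm_num

theorem st_SHIFT (h1 : ST_CONN) (_h2 : ST_GRP) : ST_SHIFT := by
  intro n N0 N hset hU S hS π G hT L K hF
  have hN : IsNorm N0 := hset.norm0
  constructor
  · intro μ x hx
    rcases μ with _ | ⟨i, b⟩
    · refine SHIFT_core h1 hN hU hS hF hT.per none 0 ?_ ?_ x hx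
      · intro ν
        constructor <;> norm_num
      · exact fun s => hT.tin 0 s
    · refine SHIFT_core h1 hN hU hS hF hT.per (some (i, b)) (Pi.single (some (i, !b)) (1 / 2))
        ?_ ?_ x hx
      · intro ν
        by_cases hν : ν = some (i, !b)
        · subst hν
          rw [Pi.single_eq_same]
          constructor <;> norm_num
        · rw [Pi.single_eq_of_ne hν]
          constructor <;> norm_num
      · intro s
        refine hT.strip _ i b s ?_
        rw [Pi.single_eq_same]
        exact SHIFT_half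
  · intro σ x hx
    refine h1 n N0 hN hU S hS (Ix n → ℝ) (SHIFT_Q (Ix n))
      (fun x => (K x).comp (L (x ∘ sI σ))) (SHIFT_convex _) ?_ ?_ ?_ x hx
    · refine (SHIFT_cont hF continuous_id ?_).continuousOn
      exact continuous_pi fun i => continuous_apply _
    · intro y hy
      refine SHIFT_mem hF ?_ ?_ (hT.sym σ y)
      · refine SHIFT_ball fun ν => ?_
        have := hy ν
        rw [abs_le]
        constructor <;> linarith [this.1, this.2]
      · refine SHIFT_ball fun ν => ?_
        have := hy (sI σ ν)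
        rw [abs_le, Function.comp_apply]
        constructor <;> linarith [this.1, this.2]
    · refine ⟨0, ?_, ?_⟩
      · intro ν
        constructor <;> norm_num
      · have e : (0 : Ix n → ℝ) ∘ sI σ = 0 := rfl
        show (K 0).comp (L ((0 : Ix n → ℝ) ∘ sI σ)) ∈ S
        rw [e, hF.left 0 (SHIFT_ball fun ν => by simp)]
        exact hS.one

end Pool.Agent.Helper83.CB
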